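import Pool.Agent.W251.GX.Defs
import Pool.Agent.W78.GA.Basic

/-!
Project GX, HITB: local geometry for additive functions modulo `3`.
-/

set_option autoImplicit false

namespace Pool.Agent.W494.GX

open Finset Pool.Agent.W251.GX
open Pool.Agent.W78.GA (Qd nm prim dt ip ball pball edge dedge nm_cast nm_neg nm_pos mem_ball
  mem_pball prim_ne_zero)
open Pool.Agent.W84.FP (Gi)

theorem hD : (0 : ℤ) ^ 2 < 4 * 1 := by norm_num

theorem nmZ (z : Gi) : (nm z : ℤ) = z.re ^ 2 + z.im ^ 2 := by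
  rw [nm_cast hD z]; ring

theorem nm_mul_eq (v u : Gi) : (nm v : ℤ) * nm u = ip v u ^ 2 + dt v u ^ 2 := by
  rw [nmZ, nmZ]; unfold ip dt; ring

theorem dt_comm (v u : Gi) : dt u v = -dt v u := by unfold dt; ring

theorem dt_neg_right (v u : Gi) : dt v (-u) = -dt v u := by
  unfold dt; simp only [QuadraticAlgebra.re_neg, QuadraticAlgebra.im_neg]; ring

theorem dt_neg_left (v u : Gi) : dt (-v) u = -dt v u := by
  unfold dt; simp only [QuadraticAlgebra.re_neg, QuadraticAlgebra.im_neg]; ring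

theorem ip_neg_right (v u : Gi) : ip v (-u) = -ip v u := by
  unfold ip; simp only [QuadraticAlgebra.re_neg, QuadraticAlgebra.im_neg]; ring

theorem ip_comm (v u : Gi) : ip u v = ip v u := by unfold ip; ring

theorem prim_of_dt {v u : Gi} (h : dt v u = 1 ∨ dt v u = -1) : prim u := by
  unfold prim
  rw [← Int.isCoprime_iff_gcd_eq_one]
  unfold dt at h
  rcases h with h | h
  · exact ⟨-v.im, v.re, by linarith⟩
  · exact ⟨v.im, -v.re, by linarith⟩

theorem pball_neg {X : ℝ} {z : Gi} (hz : z ∈ pball 0 1 X) : -z ∈ pball 0 1 X := by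
  rw [mem_pball hD] at hz ⊢
  rw [nm_neg]
  refine ⟨?_, hz.2⟩
  have := hz.1
  unfold prim at this ⊢
  simp only [QuadraticAlgebra.re_neg, QuadraticAlgebra.im_neg]
  rw [Int.neg_gcd, Int.gcd_neg]
  exact this

theorem memBs {E : Finset (Gi × Gi)} {C : ℝ} {e : Gi × Gi} (he : e ∈ E) {q : Gi}
    (hq : q = e.1 ∨ q = -e.1 ∨ q = e.2 ∨ q = -e.2 ∨ q = e.1 + e.2 ∨ q = -(e.1 + e.2) ∨
      q = e.1 - e.2 ∨ q = -(e.1 - e.2)) : q ∈ Bs E C := by
  classical
  unfold Bs
  rw [mem_union, mem_biUnion]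
  left
  refine ⟨e, he, ?_⟩
  simp only [mem_insert, mem_singleton]
  exact hq

theorem memEA' {P : ℤ → Prop} {X : ℝ} {x x' : Gi} (hx : x ∈ pball 0 1 X) (hx' : x' ∈ pball 0 1 X)
    (hdt : dt x x' = 1) (hip : 0 < ip x x') (hP : P (ip x x')) : (x, x') ∈ EA P X := by
  classical
  unfold EA dedge
  rw [mem_filter, mem_filter, mem_product]
  exact ⟨⟨⟨hx, hx'⟩, hdt⟩, hip, hP⟩

section

variable {h : ℕ → ZMod 3} (hh : ∀ m n : ℕ, m ≠ 0 → n ≠ 0 → h (m * n) = h m + h n) {r : ZMod 3}
  {X : ℝ}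

include hh in
theorem memEA {x x' : Gi} (hx : x ∈ pball 0 1 X) (hx' : x' ∈ pball 0 1 X) (hdt : dt x x' = 1)
    (hip : 0 < ip x x') (hy : (h (nm x) + r) + (h (nm x') + r) = 0) :
    (x, x') ∈ EA (fun n => h (n ^ 2 + 1).natAbs = r) X := by
  refine memEA' hx hx' hdt hip ?_
  show h (ip x x' ^ 2 + 1).natAbs = r
  have h1 := nm_mul_eq x x'
  rw [hdt] at h1
  have h2 : (ip x x' ^ 2 + 1).natAbs = nm x * nm x' := by
    have h3 : ip x x' ^ 2 + 1 = ((nm x * nm x' : ℕ) : ℤ) := by push_cast; rw [h1]; ring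
    rw [h3, Int.natAbs_natCast]
  have hx0 : nm x ≠ 0 := by
    have := nm_pos hD (prim_ne_zero ((mem_pball hD).1 hx).1)
    omega
  have hx0' : nm x' ≠ 0 := by
    have := nm_pos hD (prim_ne_zero ((mem_pball hD).1 hx').1)
    omega
  rw [h2, hh _ _ hx0 hx0']
  have h3 : (3 : ZMod 3) = 0 := by decide
  linear_combination hy - r * h3

include hh in
theorem bs1 {x x' : Gi} (hx : x ∈ pball 0 1 X) (hx' : x' ∈ pball 0 1 X) (hdt : dt x x' = 1)
    (hy : (h (nm x) + r) + (h (nm x') + r) = 0) {q : Gi}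
    (hq : q = x ∨ q = -x ∨ q = x' ∨ q = -x' ∨ q = x - x' ∨ q = x' - x) :
    q ∈ Bs (EA (fun n => h (n ^ 2 + 1).natAbs = r) X) 4 := by
  classical
  rcases lt_trichotomy (ip x x') 0 with hip | hip | hip
  · have h1 := memEA hh hx' (pball_neg hx) (by rw [dt_neg_right, dt_comm x x', hdt]; norm_num)
      (by rw [ip_neg_right, ip_comm]; linarith) (r := r) (by rw [nm_neg, add_comm]; exact hy)
    refine memBs h1 ?_
    show q = x' ∨ q = -x' ∨ q = -x ∨ q = - -x ∨ q = x' + -x ∨ q = -(x' + -x) ∨ q = x' - -x ∨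
      q = -(x' - -x)
    rcases hq with h | h | h | h | h | h
    · right; right; right; left; rw [h, neg_neg]
    · right; right; left; exact h
    · left; exact h
    · right; left; exact h
    · right; right; right; right; right; left; rw [h]; ring
    · right; right; right; right; left; rw [h]; ring
  · have h1 := nm_mul_eq x x'
    rw [hdt, hip] at h1
    have h2 : nm x * nm x' = 1 := by
      have : ((nm x * nm x' : ℕ) : ℤ) = ((1 : ℕ) : ℤ) := by push_cast; rw [h1]; norm_num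
      exact_mod_cast this
    have h3 : nm x = 1 := Nat.eq_one_of_mul_eq_one_right h2
    have h4 : nm x' = 1 := Nat.eq_one_of_mul_eq_one_left h2
    have h5 : ∀ z : Gi, z = x - x' → nm z = 2 := by
      intro z hz
      have h6 := nmZ z
      have h7 := nmZ x
      have h8 := nmZ x'
      rw [h3] at h7
      rw [h4] at h8
      rw [hz] at h6
      simp only [QuadraticAlgebra.re_sub, QuadraticAlgebra.im_sub] at h6
      unfold ip at hip
      have h9 : (nm z : ℤ) = 2 := by
        rw [hz, h6]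
        push_cast at h7 h8
        nlinarith
      exact_mod_cast h9
    have h6 : nm q = 1 ∨ nm q = 2 := by
      rcases hq with h | h | h | h | h | h
      · left; rw [h, h3]
      · left; rw [h, nm_neg, h3]
      · left; rw [h, h4]
      · left; rw [h, nm_neg, h4]
      · right; exact h5 q h
      · right
        have : q = -(x - x') := by rw [h]; ring
        rw [this, nm_neg]
        exact h5 _ rfl
    unfold Bs
    rw [mem_union]
    right
    rw [mem_ball hD]
    rcases h6 with h6 | h6 <;> rw [h6] <;> constructor <;> norm_num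
  · have h1 := memEA hh hx hx' hdt hip (r := r) hy
    refine memBs h1 ?_
    show q = x ∨ q = -x ∨ q = x' ∨ q = -x' ∨ q = x + x' ∨ q = -(x + x') ∨ q = x - x' ∨
      q = -(x - x')
    rcases hq with h | h | h | h | h | h
    · left; exact h
    · right; left; exact h
    · right; right; left; exact h
    · right; right; right; left; exact h
    · right; right; right; right; right; right; left; exact h
    · right; right; right; right; right; right; right; rw [h]; ring

include hh in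
theorem bs2 {x x' : Gi} (hx : x ∈ pball 0 1 X) (hx' : x' ∈ pball 0 1 X)
    (hdt : dt x x' = 1 ∨ dt x x' = -1)
    (hy : (h (nm x) + r) + (h (nm x') + r) = 0) {q : Gi}
    (hq : q = x ∨ q = -x ∨ q = x' ∨ q = -x' ∨ q = x - x' ∨ q = x' - x) :
    q ∈ Bs (EA (fun n => h (n ^ 2 + 1).natAbs = r) X) 4 := by
  rcases hdt with hdt | hdt
  · exact bs1 hh hx hx' hdt hy hq
  · exact bs1 hh hx' hx (by rw [dt_comm x x', hdt]; norm_num) (by rw [add_comm]; exact hy)
      (by tauto)

/-- the path `r₀ + i u` -/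
def pa (r₀ u : Gi) (i : ℕ) : Gi := ⟨r₀.re + i * u.re, r₀.im + i * u.im⟩

theorem pa_zero (r₀ u : Gi) : pa r₀ u 0 = r₀ := by
  unfold pa; apply QuadraticAlgebra.ext <;> simp

theorem pa_succ (r₀ u : Gi) (i : ℕ) : pa r₀ u (i + 1) - pa r₀ u i = u := by
  apply QuadraticAlgebra.ext
  · rw [QuadraticAlgebra.re_sub]; unfold pa; push_cast; ring
  · rw [QuadraticAlgebra.im_sub]; unfold pa; push_cast; ring

theorem dt_pa (r₀ u : Gi) (i : ℕ) : dt u (pa r₀ u i) = dt u r₀ := by
  unfold dt pa; ring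

theorem dt_pa_succ (r₀ u : Gi) (i : ℕ) : dt (pa r₀ u i) (pa r₀ u (i + 1)) = -dt u r₀ := by
  unfold dt pa; push_cast; ring

theorem nm_pa (r₀ u : Gi) {i n : ℕ} (hin : i ≤ n) :
    nm (pa r₀ u i) ≤ nm r₀ ∨ nm (pa r₀ u i) ≤ nm (pa r₀ u n) := by
  by_contra hcon
  push Not at hcon
  obtain ⟨h1, h2⟩ := hcon
  have h1' : (nm r₀ : ℤ) < nm (pa r₀ u i) := by exact_mod_cast h1
  have h2' : (nm (pa r₀ u n) : ℤ) < nm (pa r₀ u i) := by exact_mod_cast h2
  rw [nmZ, nmZ] at h1' h2'
  unfold pa at h1' h2'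
  simp only at h1' h2'
  have hin' : (i : ℤ) ≤ n := by exact_mod_cast hin
  have hi0 : (0 : ℤ) ≤ i := by positivity
  set D : ℤ := u.re ^ 2 + u.im ^ 2 with hDd
  set B : ℤ := r₀.re * u.re + r₀.im * u.im with hB
  have hD0 : 0 ≤ D := by positivity
  have e1 : 0 < (i : ℤ) * (2 * B + D * i) := by
    have : (i : ℤ) * (2 * B + D * i) = ((r₀.re + i * u.re) ^ 2 + (r₀.im + i * u.im) ^ 2) -
      (r₀.re ^ 2 + r₀.im ^ 2) := by rw [hDd, hB]; ring
    rw [this]; linarith
  have e2 : ((n : ℤ) - i) * (2 * B + D * (n + i)) < 0 := by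
    have : ((n : ℤ) - i) * (2 * B + D * (n + i)) =
        ((r₀.re + n * u.re) ^ 2 + (r₀.im + n * u.im) ^ 2) -
        ((r₀.re + i * u.re) ^ 2 + (r₀.im + i * u.im) ^ 2) := by rw [hDd, hB]; ring
    rw [this]; linarith
  have e3 : 0 < 2 * B + D * i := by
    by_contra hc
    have := mul_nonpos_of_nonneg_of_nonpos hi0 (not_lt.1 hc)
    linarith
  have e4 : 2 * B + D * (n + i) < 0 := by
    by_contra hc
    have := mul_nonneg (by linarith : (0 : ℤ) ≤ n - i) (not_lt.1 hc)
    linarith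
  have e5 : 0 ≤ D * n := mul_nonneg hD0 (by linarith)
  nlinarith

include hh in
/-- the path from a vector with value `2` to a vector with value `1` -/
theorem path {u r₀ : Gi} (hu : u ∈ pball 0 1 X) (hr : r₀ ∈ pball 0 1 X)
    (hdt : dt u r₀ = 1 ∨ dt u r₀ = -1) (hyu : h (nm u) + r = 0) (hyr : h (nm r₀) + r = 2)
    {n : ℕ} (hn : pa r₀ u n ∈ pball 0 1 X) (hyn : h (nm (pa r₀ u n)) + r = 1) {q : Gi}
    (hq : q = u ∨ q = -u) :
    q ∈ Bs (EA (fun n => h (n ^ 2 + 1).natAbs = r) X) 4 := by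
  have hstep : ∃ i < n, h (nm (pa r₀ u i)) + r = 2 ∧ h (nm (pa r₀ u (i + 1))) + r ≠ 2 := by
    by_contra hcon
    push Not at hcon
    have hall : ∀ i, i ≤ n → h (nm (pa r₀ u i)) + r = 2 := by
      intro i
      induction i with
      | zero => intro _; rw [pa_zero]; exact hyr
      | succ i ih => intro hi; exact hcon i (by omega) (ih (by omega))
    have := hall n le_rfl
    rw [hyn] at this
    exact absurd this (by decide)
  obtain ⟨i, hi, h1, h2⟩ := hstep
  have hmem : ∀ i, i ≤ n → pa r₀ u i ∈ pball 0 1 X := by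
    intro i hi
    rw [mem_pball hD] at hr hn ⊢
    refine ⟨prim_of_dt (v := u) (by rw [dt_pa]; exact hdt), ?_⟩
    rcases nm_pa r₀ u hi with h3 | h3
    · exact le_trans (by exact_mod_cast h3) hr.2
    · exact le_trans (by exact_mod_cast h3) hn.2
  have hy : ∀ y : ZMod 3, y ≠ 2 → y = 0 ∨ y = 1 := by decide
  rcases hy _ h2 with h3 | h3
  · refine bs2 hh (r := r) hu (hmem (i + 1) (by omega)) (by rw [dt_pa]; exact hdt) ?_
      (q := q) (by tauto)
    rw [hyu, h3]; decide
  · refine bs2 hh (r := r) (hmem i (by omega)) (hmem (i + 1) (by omega)) ?_ ?_ (q := q) ?_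
    · rw [dt_pa_succ]
      rcases hdt with h4 | h4 <;> rw [h4] <;> norm_num
    · rw [h1, h3]; decide
    · have h4 := pa_succ r₀ u i
      rcases hq with h5 | h5
      · right; right; right; right; right; rw [h5, h4]
      · right; right; right; right; left
        rw [h5]
        nth_rewrite 1 [← h4]
        ring

include hh in
theorem good1 {v r₀ x : Gi} (hv : v ∈ pball 0 1 X) (hr : r₀ ∈ pball 0 1 X) (hx : x ∈ pball 0 1 X)
    (hdr : dt v r₀ = 1) (hdx : dt v x = 1) (hyv : h (nm v) + r = 0) (hyr : h (nm r₀) + r = 2)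
    (hyx : h (nm x) + r = 1) :
    v ∈ Bs (EA (fun n => h (n ^ 2 + 1).natAbs = r) X) 4 := by
  set j := dt x r₀ with hj
  have hre : x.re = r₀.re + j * v.re := by
    rw [hj]; unfold dt at *
    linear_combination r₀.re * hdx - x.re * hdr
  have him : x.im = r₀.im + j * v.im := by
    rw [hj]; unfold dt at *
    linear_combination r₀.im * hdx - x.im * hdr
  rcases le_total 0 j with h0 | h0
  · obtain ⟨n, hn⟩ := Int.eq_ofNat_of_zero_le h0
    have hxp : x = pa r₀ v n := by
      unfold pa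
      apply QuadraticAlgebra.ext
      · rw [hre, hn]
      · rw [him, hn]
    rw [hxp] at hx hyx
    exact path hh hv hr (Or.inl hdr) hyv hyr hx hyx (Or.inl rfl)
  · obtain ⟨n, hn⟩ := Int.eq_ofNat_of_zero_le (neg_nonneg.2 h0)
    have hxp : x = pa r₀ (-v) n := by
      unfold pa
      apply QuadraticAlgebra.ext
      · simp only [QuadraticAlgebra.re_neg]
        rw [hre, ← hn]; ring
      · simp only [QuadraticAlgebra.im_neg]
        rw [him, ← hn]; ring
    rw [hxp] at hx hyx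
    exact path hh (pball_neg hv) hr (Or.inr (by rw [dt_neg_left, hdr])) (by rw [nm_neg]; exact hyv)
      hyr hx hyx (Or.inr (by rw [neg_neg]))

include hh in
theorem good {v r₀ x : Gi} (hv : v ∈ pball 0 1 X) (hr : r₀ ∈ pball 0 1 X) (hx : x ∈ pball 0 1 X)
    (hdr : dt v r₀ = 1 ∨ dt v r₀ = -1) (hdx : dt v x = 1 ∨ dt v x = -1)
    (hyv : h (nm v) + r = 0) (hyr : h (nm r₀) + r = 2) (hyx : h (nm x) + r = 1) :
    v ∈ Bs (EA (fun n => h (n ^ 2 + 1).natAbs = r) X) 4 := by
  have key : ∀ z : Gi, z ∈ pball 0 1 X → (dt v z = 1 ∨ dt v z = -1) →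
      ∃ z' : Gi, z' ∈ pball 0 1 X ∧ dt v z' = 1 ∧ nm z' = nm z := by
    intro z hz hd
    rcases hd with hd | hd
    · exact ⟨z, hz, hd, rfl⟩
    · exact ⟨-z, pball_neg hz, by rw [dt_neg_right, hd]; norm_num, nm_neg z⟩
  obtain ⟨r', hr1, hr2, hr3⟩ := key r₀ hr hdr
  obtain ⟨x', hx1, hx2, hx3⟩ := key x hx hdx
  exact good1 hh hv hr1 hx1 hr2 hx2 hyv (by rw [hr3]; exact hyr) (by rw [hx3]; exact hyx)

end

theorem hitb (hb : S_BETW 0 1) : S_HITB := by
  classical
  intro h hh r
  refine ⟨4, fun X _ z z' hz hz' hyz hyz' => ?_⟩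
  -- the colour
  let E : Gi → Prop := fun v => ∃ x ∈ pball 0 1 X, (dt v x = 1 ∨ dt v x = -1) ∧ h (nm x) + r = 1
  let a : Gi → ℕ := fun v => if h (nm v) + r = 1 then 1 else if h (nm v) + r = 2 then 2 else
    if E v then 1 else 2
  have h21 : (2 : ZMod 3) ≠ 1 := by decide
  have h01 : (0 : ZMod 3) ≠ 1 := by decide
  have h02 : (0 : ZMod 3) ≠ 2 := by decide
  have a1 : ∀ v, h (nm v) + r = 1 → a v = 1 := by
    intro v hv; simp only [a]; rw [if_pos hv]
  have a2 : ∀ v, h (nm v) + r = 2 → a v = 2 := by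
    intro v hv; simp only [a]; rw [if_neg (by rw [hv]; exact h21), if_pos hv]
  have a0 : ∀ v, h (nm v) + r = 0 → a v = if E v then 1 else 2 := by
    intro v hv; simp only [a]
    rw [if_neg (by rw [hv]; exact h01), if_neg (by rw [hv]; exact h02)]
  have hy : ∀ y : ZMod 3, y = 0 ∨ y = 1 ∨ y = 2 := by decide
  have claim : ∀ e ∈ edge 0 1 X, a e.1 ≠ a e.2 →
      e.1 ∈ Bs (EA (fun n => h (n ^ 2 + 1).natAbs = r) X) 4 ∨
      e.2 ∈ Bs (EA (fun n => h (n ^ 2 + 1).natAbs = r) X) 4 := by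
    rintro ⟨v, w⟩ he hne
    unfold edge at he
    rw [mem_filter, mem_product] at he
    obtain ⟨⟨hv, hw⟩, hdt, -⟩ := he
    simp only at hv hw hdt hne ⊢
    have hdt' : dt w v = -1 := by rw [dt_comm v w, hdt]
    rcases hy (h (nm v) + r) with h1 | h1 | h1 <;> rcases hy (h (nm w) + r) with h2 | h2 | h2
    · left
      exact bs2 hh hv hw (Or.inl hdt) (by rw [h1, h2]; decide) (Or.inl rfl)
    · exfalso
      apply hne
      rw [a1 w h2, a0 v h1, if_pos]
      exact ⟨w, hw, Or.inl hdt, h2⟩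
    · left
      rw [a2 w h2, a0 v h1] at hne
      have hE : E v := by
        by_contra hc
        rw [if_neg hc] at hne
        exact hne rfl
      obtain ⟨x, hx, hdx, hyx⟩ := hE
      exact good hh hv hw hx (Or.inl hdt) hdx h1 h2 hyx
    · exfalso
      apply hne
      rw [a1 v h1, a0 w h2, if_pos]
      exact ⟨v, hv, Or.inr hdt', h1⟩
    · exfalso
      apply hne
      rw [a1 v h1, a1 w h2]
    · left
      exact bs2 hh hv hw (Or.inl hdt) (by rw [h1, h2]; decide) (Or.inl rfl)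
    · right
      rw [a2 v h1, a0 w h2] at hne
      have hE : E w := by
        by_contra hc
        rw [if_neg hc] at hne
        exact hne rfl
      obtain ⟨x, hx, hdx, hyx⟩ := hE
      exact good hh hw hv hx (Or.inr hdt') hdx h2 h1 hyx
    · left
      exact bs2 hh hv hw (Or.inl hdt) (by rw [h1, h2]; decide) (Or.inl rfl)
    · exfalso
      apply hne
      rw [a2 v h1, a2 w h2]
  have haz : a z ≠ a z' := by rw [a1 z hyz, a2 z' hyz']; norm_num
  constructor
  · intro hpos
    obtain ⟨e, he, hne, h1, h2, h3, h4⟩ := hb ℕ a X z z' hz hz' hpos haz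
    rcases claim e he hne with hc | hc
    · exact ⟨e.1, hc, h1, h3.le⟩
    · exact ⟨e.2, hc, h2.le, h4⟩
  · intro hpos
    obtain ⟨e, he, hne, h1, h2, h3, h4⟩ := hb ℕ a X z' z hz' hz hpos haz.symm
    rcases claim e he hne with hc | hc
    · exact ⟨e.1, hc, h1, h3.le⟩
    · exact ⟨e.2, hc, h2.le, h4⟩

end Pool.Agent.W494.GX
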